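import Pool.Agent.Lib.MP_54b7d9_co.Bound

set_option autoImplicit false

namespace Pool.Agent.Results.MP_54b7d9_co.LowerBound

open Pool.Agent.Lib.MP_54b7d9_co

/-- For every `n ≥ 2` some poset with `n` elements has at least `2 (n-1)!` quasi-tangled
labelings. -/
theorem result (n : ℕ) (hn : 2 ≤ n) : 2 * (n - 1).factorial ≤ maxQuasi n :=
  main n hn

end Pool.Agent.Results.MP_54b7d9_co.LowerBound
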