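import Pool.Agent.Lib.MP_54b7d9_co.SP.Main

set_option autoImplicit false

namespace Pool.Agent.Results.MP_54b7d9_co.SeriesParallel

open Pool.Agent.Lib.MP_54b7d9_co Pool.Agent.Lib.MP_54b7d9_co.SP

/-- Every poset with `n ≥ 2` elements that is series-parallel, or can be made series-parallel by
successively changing the order inside modules with at least two elements below them, has at most
`2 (n-1)!` quasi-tangled labelings. -/
theorem result (P : Type) [Fintype P] [o : PartialOrder P] (hn : 2 ≤ Fintype.card P)
    (h : IsReducible o) : quasiCount P ≤ 2 * (Fintype.card P - 1).factorial :=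
  sp_main P hn h

end Pool.Agent.Results.MP_54b7d9_co.SeriesParallel
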