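import Pool.Agent.Lib.MP_54b7d9_co.Kappa

set_option autoImplicit false

namespace Pool.Agent.Results.MP_54b7d9_co.SmallDownSets

open Pool.Agent.Lib.MP_54b7d9_co

/-- If for every `p` the elements `b ≤ p` having one or two elements strictly below them have at
most `κ` different strict down-sets, then the poset has at most `2 κ (n-1)!` quasi-tangled
labelings; for `κ = 1` the bound is attained for every `n ≥ 3`. -/
theorem result (n : ℕ) (hn : 3 ≤ n) :
    (∀ (κ : ℕ) (o : PartialOrder (Fin n)), (∀ p, (@smallDown (Fin n) _ o p).card ≤ κ) →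
      @quasiCount (Fin n) _ o ≤ 2 * κ * (n - 1).factorial) ∧
    (∃ o : PartialOrder (Fin n), (∀ p, (@smallDown (Fin n) _ o p).card ≤ 1) ∧
      @quasiCount (Fin n) _ o = 2 * (n - 1).factorial) := by
  have key : ∀ (κ : ℕ) (o : PartialOrder (Fin n)), (∀ p, (@smallDown (Fin n) _ o p).card ≤ κ) →
      @quasiCount (Fin n) _ o ≤ 2 * κ * (n - 1).factorial := by
    intro κ o h
    have h1 := @quasi_le_kappa (Fin n) _ o κ (by rw [Fintype.card_fin]; exact hn) h
    rwa [Fintype.card_fin] at h1
  refine ⟨key, twoChain n, twoChain_small n hn, le_antisymm ?_ (twoChain_count n (by omega))⟩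
  have h := key 1 (twoChain n) (twoChain_small n hn)
  rwa [mul_one] at h

end Pool.Agent.Results.MP_54b7d9_co.SmallDownSets
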