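import Pool.Agent.Lib.MP_54b7d9_co.UReal

set_option autoImplicit false

namespace Pool.Agent.Results.MP_54b7d9_co.UpperBound

open Pool.Agent.Lib.MP_54b7d9_co

/-- For every `n ≥ 2` every poset with `n` elements has at most
`208 (log n)^(2/3) n! / n^(1/3)` quasi-tangled labelings. -/
theorem result (n : ℕ) (hn : 2 ≤ n) :
    (maxQuasi n : ℝ) ≤ 208 * Real.log n ^ (2 / 3 : ℝ) * n.factorial / (n : ℝ) ^ (1 / 3 : ℝ) :=
  main_log n hn

end Pool.Agent.Results.MP_54b7d9_co.UpperBound
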